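import Pool.Agent.Helper98.RG.Core

/-!
# Random presentations: presentations with a given block, and directed colimits
-/

set_option autoImplicit false

namespace Pool.Agent.Helper98.RG

/-- The class `C` of groups is closed under groups that embed, and under colimits of directed systems with
arbitrary structure maps. -/
structure SubColim (C : ∀ (G : Type) [Group G], Prop) : Prop where
  of_injective : ∀ (G H : Type) [Group G] [Group H] (f : G →* H), Function.Injective f →
    C H → C G
  colim : ∀ (I : Type) [Preorder I] [Nonempty I] (_ : ∀ i j : I, ∃ k, i ≤ k ∧ j ≤ k)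
    (G : I → Type) [∀ i, Group (G i)] (f : ∀ i j, i ≤ j → G i →* G j)
    (L : Type) [Group L] (g : ∀ i, G i →* L),
    (∀ i (h : i ≤ i) (x : G i), f i i h x = x) →
    (∀ i j k (h : i ≤ j) (h' : j ≤ k) (x : G i), f j k h' (f i j h x) = f i k (h.trans h') x) →
    (∀ i j (h : i ≤ j) (x : G i), g j (f i j h x) = g i x) →
    (∀ y : L, ∃ i, ∃ x : G i, g i x = y) →
    (∀ i (x : G i), g i x = 1 → ∃ j, ∃ h : i ≤ j, f i j h x = 1) →
    (∀ i, C (G i)) → C L

/-- The class `C` of groups is closed under retracts (in particular, under isomorphic groups). -/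
def Retracts (C : ∀ (G : Type) [Group G], Prop) : Prop :=
  ∀ (G H : Type) [Group G] [Group H] (i : G →* H) (r : H →* G), (∀ x, r (i x) = x) → C H → C G

theorem SubColim.retracts {C : ∀ (G : Type) [Group G], Prop} (hC : SubColim C) : Retracts C :=
  fun G H _ _ i _ h => hC.of_injective G H i (Function.LeftInverse.injective h)

/-- The number of the presentations with `n` generators and `m` relators of length three whose group is not in
the class `C`. -/
noncomputable def exceptions (C : ∀ (G : Type) [Group G], Prop) (n m : ℕ) : ℕ :=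
  Nat.card {P : Fin m → Fin 3 → Fin n × Bool // ¬ C (Grp P)}

theorem card_all (n m : ℕ) : Nat.card (Fin m → Fin 3 → Fin n × Bool) = (2 * n) ^ (3 * m) := by
  simp only [Nat.card_eq_fintype_card, Fintype.card_pi, Fintype.card_prod, Fintype.card_fin,
    Fintype.card_bool, Finset.prod_const, Finset.card_univ]
  rw [← pow_mul, mul_comm n 2]

section block

variable {α β n m : ℕ} {A B : Type}

/-- the presentation with the relators `τ` and `Q`, on different generators -/
def join (eA : A ≃ Fin α) (eB : B ≃ Fin β) (τ : B → Fin 3 → A × Bool) (Q : Fin m → Fin 3 → Fin n × Bool) :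
    Fin (β + m) → Fin 3 → Fin (α + n) × Bool :=
  Fin.append (fun j t => (Fin.castAdd n (eA (τ (eB.symm j) t).1), (τ (eB.symm j) t).2))
    (fun j t => (Fin.natAdd α (Q j t).1, (Q j t).2))

theorem join_inj (eA : A ≃ Fin α) (eB : B ≃ Fin β) (τ : B → Fin 3 → A × Bool) :
    Function.Injective (join (n := n) (m := m) eA eB τ) := by
  intro Q Q' h
  funext j t
  have h1 := congrFun (congrFun h (Fin.natAdd β j)) t
  unfold join at h1
  rw [Fin.append_right, Fin.append_right] at h1
  have h2 := (Prod.ext_iff.1 h1).1
  have h3 := (Prod.ext_iff.1 h1).2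
  exact Prod.ext (Fin.natAdd_injective _ _ h2) h3

theorem join_not {C : ∀ (G : Type) [Group G], Prop} (hC : Retracts C)
    {a : ℕ} {R : Set (FreeGroup (Fin a))} (hG : ¬ C (PresentedGroup R))
    (eA : A ≃ Fin α) (eB : B ≃ Fin β) (τ : B → Fin 3 → A × Bool) (val : A → PresentedGroup R)
    (ι : Fin a → A) (h1 : ∀ b, word3 val (τ b) = 1) (h2 : ∀ i, val (ι i) = PresentedGroup.of i)
    (h3 : ∀ (H : Type) [Group H] (v : A → H), (∀ b, word3 v (τ b) = 1) →
        ∀ r ∈ R, FreeGroup.lift (fun i => v (ι i)) r = 1) (Q : Fin m → Fin 3 → Fin n × Bool) :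
    ¬ C (Grp (join eA eB τ Q)) := by
  intro hcon
  apply hG
  let v : A → Grp (join eA eB τ Q) := fun x => PresentedGroup.of (Fin.castAdd n (eA x))
  have hv : ∀ b, word3 v (τ b) = 1 := by
    intro b
    have h4 := grp_rel (join eA eB τ Q) (Fin.castAdd m (eB b))
    have h5 : join eA eB τ Q (Fin.castAdd m (eB b)) =
        fun t => (Fin.castAdd n (eA (τ b t).1), (τ b t).2) := by
      unfold join
      rw [Fin.append_left]
      simp only [Equiv.symm_apply_apply]
    rw [h5] at h4
    exact h4
  let φ : PresentedGroup R →* Grp (join eA eB τ Q) :=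
    PresentedGroup.toGroup (f := fun i => v (ι i)) (h3 _ v hv)
  let u : Fin (α + n) → PresentedGroup R := fun i =>
    Fin.addCases (motive := fun _ => PresentedGroup R) (fun i => val (eA.symm i)) (fun _ => 1) i
  have hu1 : ∀ x, u (Fin.castAdd n (eA x)) = val x := fun x => by
    simp only [u, Fin.addCases_left, Equiv.symm_apply_apply]
  have hu2 : ∀ x, u (Fin.natAdd α x) = 1 := fun x => by
    simp only [u, Fin.addCases_right]
  have hu : ∀ j, word3 u (join eA eB τ Q j) = 1 := by
    intro j
    refine Fin.addCases (fun j => ?_) (fun j => ?_) j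
    · unfold join
      rw [Fin.append_left]
      simp only [word3, lt, hu1]
      exact h1 (eB.symm j)
    · unfold join
      rw [Fin.append_right]
      simp only [word3, lt, hu2]
      have h6 : ∀ b : Bool, (cond b (1 : PresentedGroup R) 1⁻¹) = 1 := fun b => by cases b <;> simp
      rw [h6, h6, h6]
      simp
  let ρ : Grp (join eA eB τ Q) →* PresentedGroup R := toGrp u hu
  have h7 : ρ.comp φ = MonoidHom.id _ := by
    apply PresentedGroup.ext
    intro i
    show ρ (φ (PresentedGroup.of i)) = PresentedGroup.of i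
    have h8 : φ (PresentedGroup.of i) = v (ι i) := PresentedGroup.toGroup.of _
    rw [h8]
    show toGrp u hu (PresentedGroup.of _) = _
    rw [toGrp_of, hu1, h2]
  exact hC _ _ φ ρ (fun z => congrArg (fun f : PresentedGroup R →* PresentedGroup R => f z) h7) hcon

end block

/-- One finitely presented group outside of `C` gives many exceptions. -/
theorem block {C : ∀ (G : Type) [Group G], Prop} (hC : Retracts C)
    {a : ℕ} {R : Set (FreeGroup (Fin a))} (hR : R.Finite) (hG : ¬ C (PresentedGroup R)) :
    ∃ α β : ℕ, ∀ n m : ℕ, (2 * n) ^ (3 * m) ≤ exceptions C (α + n) (β + m) := by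
  obtain ⟨A, B, _, _, τ, val, ι, h1, h2, h3⟩ := triangulate R hR
  refine ⟨Nat.card A, Nat.card B, fun n m => ?_⟩
  rw [← card_all]
  unfold exceptions
  refine Nat.card_le_card_of_injective (fun Q => ⟨join (Finite.equivFin A) (Finite.equivFin B) τ Q,
    join_not hC hG _ _ τ val ι h1 h2 h3 Q⟩) ?_
  intro Q Q' h
  exact join_inj _ _ τ (congrArg Subtype.val h)

theorem exceptions_eq_zero {C : ∀ (G : Type) [Group G], Prop} (h : ∀ (G : Type) [Group G], C G) (n m : ℕ) :
    exceptions C n m = 0 := by
  unfold exceptions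
  have : IsEmpty {P : Fin m → Fin 3 → Fin n × Bool // ¬ C (Grp P)} := ⟨fun P => P.2 (h _)⟩
  exact Nat.card_of_isEmpty

/-- The finitely presented groups suffice. -/
theorem all_of_fp {C : ∀ (G : Type) [Group G], Prop} (hC : SubColim C)
    (h : ∀ (a : ℕ) (R : Set (FreeGroup (Fin a))), R.Finite → C (PresentedGroup R)) :
    ∀ (G : Type) [Group G], C G := by
  classical
  -- finitely generated groups
  have hfg : ∀ (L : Type) [Group L] (a : ℕ) (π : FreeGroup (Fin a) →* L), Function.Surjective π →
      C L := by
    intro L _ a π hπ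
    let I : Type := {s : Finset (FreeGroup (Fin a)) // ∀ x ∈ s, π x = 1}
    have hN : ∀ i : I, ∀ x ∈ Subgroup.normalClosure (i.1 : Set (FreeGroup (Fin a))), π x = 1 := by
      intro i x hx
      have h1 : Subgroup.normalClosure (i.1 : Set (FreeGroup (Fin a))) ≤ π.ker :=
        Subgroup.normalClosure_le_normal fun y hy => i.2 y hy
      exact h1 hx
    let G : I → Type := fun i => PresentedGroup (i.1 : Set (FreeGroup (Fin a)))
    let _ : ∀ i, Group (G i) := fun i =>
      (inferInstance : Group (PresentedGroup (i.1 : Set (FreeGroup (Fin a)))))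
    have hlm : ∀ j : I, (FreeGroup.lift fun x => (PresentedGroup.of x : G j)) =
        (PresentedGroup.mk (j.1 : Set (FreeGroup (Fin a))) : FreeGroup (Fin a) →* G j) := by
      intro j
      apply FreeGroup.ext_hom
      intro x
      rw [FreeGroup.lift_apply_of]
      rfl
    have hlp : (FreeGroup.lift fun x => π (FreeGroup.of x)) = π := by
      apply FreeGroup.ext_hom
      intro x
      rw [FreeGroup.lift_apply_of]
    have hfr : ∀ i j : I, i ≤ j → ∀ r ∈ (i.1 : Set (FreeGroup (Fin a))),
        (FreeGroup.lift fun x => (PresentedGroup.of x : G j)) r = 1 := by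
      intro i j hij r hr
      rw [hlm]
      exact PresentedGroup.one_of_mem (hij hr)
    have hgr : ∀ i : I, ∀ r ∈ (i.1 : Set (FreeGroup (Fin a))),
        (FreeGroup.lift fun x => π (FreeGroup.of x)) r = 1 := by
      intro i r hr
      rw [hlp]
      exact i.2 r hr
    let f : ∀ i j : I, i ≤ j → G i →* G j := fun i j hij => PresentedGroup.toGroup (hfr i j hij)
    let g : ∀ i : I, G i →* L := fun i => PresentedGroup.toGroup (hgr i)
    have hf : ∀ i j (hij : i ≤ j) (w : FreeGroup (Fin a)),
        f i j hij (PresentedGroup.mk _ w) = PresentedGroup.mk _ w := by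
      intro i j hij w
      have h4 : f i j hij (PresentedGroup.mk _ w) =
        (FreeGroup.lift fun x => (PresentedGroup.of x : G j)) w := rfl
      rw [h4, hlm]
    have hg : ∀ i (w : FreeGroup (Fin a)), g i (PresentedGroup.mk _ w) = π w := by
      intro i w
      have h4 : g i (PresentedGroup.mk _ w) =
        (FreeGroup.lift fun x => π (FreeGroup.of x)) w := rfl
      rw [h4, hlp]
    have : Nonempty I := ⟨⟨∅, by simp⟩⟩
    refine hC.colim I (fun i j => ⟨⟨i.1 ∪ j.1, fun x hx => ?_⟩, ?_, ?_⟩) G f L g ?_ ?_ ?_ ?_ ?_ ?_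
    · rcases Finset.mem_union.1 hx with h1 | h1
      · exact i.2 x h1
      · exact j.2 x h1
    · exact Finset.subset_union_left
    · exact Finset.subset_union_right
    · intro i hi x
      obtain ⟨w, rfl⟩ := PresentedGroup.mk_surjective _ x
      exact hf i i hi w
    · intro i j k hij hjk x
      obtain ⟨w, rfl⟩ := PresentedGroup.mk_surjective _ x
      rw [hf i j hij, hf j k hjk, hf i k (hij.trans hjk)]
    · intro i j hij x
      obtain ⟨w, rfl⟩ := PresentedGroup.mk_surjective _ x
      rw [hf i j hij, hg, hg]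
    · intro y
      obtain ⟨w, rfl⟩ := hπ y
      exact ⟨⟨∅, by simp⟩, PresentedGroup.mk _ w, hg _ w⟩
    · intro i x hx
      obtain ⟨w, rfl⟩ := PresentedGroup.mk_surjective _ x
      rw [hg] at hx
      have hm : ∀ x ∈ insert w i.1, π x = 1 := fun x hx' => by
        rcases Finset.mem_insert.1 hx' with h1 | h1
        · rw [h1]; exact hx
        · exact i.2 x h1
      have hle : i ≤ (⟨insert w i.1, hm⟩ : I) := Finset.subset_insert _ _
      refine ⟨_, hle, ?_⟩
      rw [hf i _ hle]
      exact PresentedGroup.one_of_mem (by simp)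
    · intro i
      exact h a _ i.1.finite_toSet
  intro L _
  refine hC.colim (Finset L) (fun i j => ⟨i ∪ j, Finset.subset_union_left, Finset.subset_union_right⟩)
    (fun i => Subgroup.closure (i : Set L))
    (fun i j hij => Subgroup.inclusion (Subgroup.closure_mono hij)) L
    (fun i => Subgroup.subtype _) ?_ ?_ ?_ ?_ ?_ ?_
  · intro i hi x
    rfl
  · intro i j k hij hjk x
    rfl
  · intro i j hij x
    rfl
  · intro y
    exact ⟨{y}, ⟨y, Subgroup.subset_closure (by simp)⟩, rfl⟩
  · intro i x hx
    refine ⟨i, le_rfl, ?_⟩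
    have h1 : x = 1 := Subtype.ext hx
    rw [h1, map_one]
  · intro i
    have h1 : Group.FG (Subgroup.closure (i : Set L)) :=
      (Group.fg_iff_subgroup_fg _).2 ⟨i, rfl⟩
    obtain ⟨α, _, π, hπ⟩ := Group.fg_iff_exists_freeGroup_hom_surjective_finite.1 h1
    refine hfg _ (Nat.card α)
      (π.comp (FreeGroup.freeGroupCongr (Finite.equivFin α)).symm.toMonoidHom) ?_
    exact hπ.comp (FreeGroup.freeGroupCongr (Finite.equivFin α)).symm.surjective

end Pool.Agent.Helper98.RG
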