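import Mathlib

/-!
# Random presentations and classes of groups closed under subgroups
-/

set_option autoImplicit false
set_option linter.unusedSimpArgs false

namespace Pool.Agent.Helper98.RG

/-- The value of the letter `(x, true)`, which is `v x`, or `(x, false)`, which is `(v x)⁻¹`. -/
def lt {A H : Type} [Group H] (v : A → H) (l : A × Bool) : H := cond l.2 (v l.1) (v l.1)⁻¹

/-- The value of a word of length three. -/
def word3 {A H : Type} [Group H] (v : A → H) (r : Fin 3 → A × Bool) : H :=
  lt v (r 0) * lt v (r 1) * lt v (r 2)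

/-- The group with the generators `x 0, ..., x (n - 1)` and the relators `P 0, ..., P (m - 1)`, words of length
three in the letters `x i` and `(x i)⁻¹`. -/
abbrev Grp {n m : ℕ} (P : Fin m → Fin 3 → Fin n × Bool) : Type :=
  PresentedGroup (Set.range fun j => word3 (FreeGroup.of : Fin n → FreeGroup (Fin n)) (P j))

theorem map_lt {A H K : Type} [Group H] [Group K] (f : H →* K) (v : A → H) (l : A × Bool) :
    f (lt v l) = lt (fun x => f (v x)) l := by
  unfold lt
  cases l.2 <;> simp

theorem map_word3 {A H K : Type} [Group H] [Group K] (f : H →* K) (v : A → H) (r : Fin 3 → A × Bool) :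
    f (word3 v r) = word3 (fun x => f (v x)) r := by
  unfold word3
  rw [map_mul, map_mul, map_lt, map_lt, map_lt]

theorem lift_word3 {A H : Type} [Group H] (v : A → H) (r : Fin 3 → A × Bool) :
    FreeGroup.lift v (word3 FreeGroup.of r) = word3 v r := by
  rw [map_word3]
  simp

theorem lift_mk_eq {A H : Type} [Group H] (v : A → H) (u : List (A × Bool)) :
    FreeGroup.lift v (FreeGroup.mk u) = (u.map (lt v)).prod := by
  rw [FreeGroup.lift_mk]
  rfl

theorem grp_rel {n m : ℕ} (P : Fin m → Fin 3 → Fin n × Bool) (j : Fin m) :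
    word3 (fun i => (PresentedGroup.of i : Grp P)) (P j) = 1 := by
  have h : (PresentedGroup.mk (Set.range fun j => word3 (FreeGroup.of : Fin n → FreeGroup (Fin n)) (P j)))
      (word3 FreeGroup.of (P j)) = 1 := by
    apply PresentedGroup.one_of_mem
    exact ⟨j, rfl⟩
  rw [map_word3] at h
  exact h

/-- homomorphisms from the group -/
def toGrp {n m : ℕ} {P : Fin m → Fin 3 → Fin n × Bool} {H : Type} [Group H] (v : Fin n → H)
    (hv : ∀ j, word3 v (P j) = 1) : Grp P →* H :=
  PresentedGroup.toGroup (f := v) (by
    rintro r ⟨j, rfl⟩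
    show FreeGroup.lift v (word3 FreeGroup.of (P j)) = 1
    rw [lift_word3]
    exact hv j)

theorem toGrp_of {n m : ℕ} {P : Fin m → Fin 3 → Fin n × Bool} {H : Type} [Group H] (v : Fin n → H)
    (hv : ∀ j, word3 v (P j) = 1) (i : Fin n) : toGrp v hv (PresentedGroup.of i) = v i :=
  PresentedGroup.toGroup.of _

/-- Every finitely presented group is a retract of a group whose relators have length three. -/
theorem triangulate {a : ℕ} (R : Set (FreeGroup (Fin a))) (hR : R.Finite) :
    ∃ (A B : Type) (_ : Finite A) (_ : Finite B) (τ : B → Fin 3 → A × Bool)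
      (val : A → PresentedGroup R) (ι : Fin a → A), (∀ b, word3 val (τ b) = 1) ∧
      (∀ i, val (ι i) = PresentedGroup.of i) ∧
      ∀ (H : Type) [Group H] (v : A → H), (∀ b, word3 v (τ b) = 1) →
        ∀ r ∈ R, FreeGroup.lift (fun i => v (ι i)) r = 1 := by
  classical
  let U : Set (List (Fin a × Bool)) := {u | u = [] ∨ ∃ r ∈ R, u <:+ r.toWord}
  have hU0 : [] ∈ U := Or.inl rfl
  have hUt : ∀ l u, l :: u ∈ U → u ∈ U := by
    rintro l u (h | ⟨r, hr, h⟩)
    · exact absurd h (List.cons_ne_nil _ _)
    · exact Or.inr ⟨r, hr, (List.suffix_cons l u).trans h⟩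
  have hUr : ∀ r ∈ R, r.toWord ∈ U := fun r hr => Or.inr ⟨r, hr, List.suffix_refl _⟩
  have hUf : U.Finite := by
    have h1 : U ⊆ {[]} ∪ ⋃ r ∈ R, {u | u ∈ r.toWord.tails} := by
      rintro u (h | ⟨r, hr, h⟩)
      · left; exact h
      · right
        simp only [Set.mem_iUnion]
        exact ⟨r, hr, (List.mem_tails _ _).2 h⟩
    refine Set.Finite.subset ?_ h1
    exact (Set.finite_singleton _).union (hR.biUnion fun r _ => List.finite_toSet _)
  have : Finite U := hUf
  have : Finite R := hR
  let y : List (Fin a × Bool) → Fin a ⊕ U := fun u => if h : u ∈ U then Sum.inr ⟨u, h⟩ else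
    Sum.inr ⟨[], hU0⟩
  have hy : ∀ u (h : u ∈ U), y u = Sum.inr ⟨u, h⟩ := fun u h => dif_pos h
  let τ1 : List (Fin a × Bool) → Fin 3 → (Fin a ⊕ U) × Bool := fun u => match u with
    | [] => ![(y [], true), (y [], true), (y [], false)]
    | l :: u' => ![(y (l :: u'), false), (Sum.inl l.1, l.2), (y u', true)]
  let τ : U ⊕ R → Fin 3 → (Fin a ⊕ U) × Bool := Sum.elim (fun u => τ1 u.1)
    (fun r => ![(y r.1.toWord, true), (y [], true), (y [], false)])
  let val : Fin a ⊕ U → PresentedGroup R := Sum.elim (fun i => PresentedGroup.of i)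
    (fun u => (u.1.map (lt fun i => (PresentedGroup.of i : PresentedGroup R))).prod)
  have hval : ∀ u (_ : u ∈ U), val (y u) =
      (u.map (lt fun i => (PresentedGroup.of i : PresentedGroup R))).prod := fun u h => by
    rw [hy u h]
    rfl
  refine ⟨Fin a ⊕ U, U ⊕ R, inferInstance, inferInstance, τ, val, Sum.inl, ?_, fun i => rfl, ?_⟩
  · rintro (⟨u, hu⟩ | ⟨r, hr⟩)
    · show word3 val (τ1 u) = 1
      cases u with
      | nil =>
        simp only [τ1, word3, lt, Matrix.cons_val_zero, Matrix.cons_val_one, Matrix.cons_val_two,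
          Matrix.head_cons, Matrix.tail_cons, Matrix.cons_val, cond_true, cond_false]
        rw [hval [] hU0]
        simp
      | cons l u' =>
        have h1 : word3 val (τ1 (l :: u')) = (val (y (l :: u')))⁻¹ *
            lt (fun i => (PresentedGroup.of i : PresentedGroup R)) l * val (y u') := by
          simp only [τ1, word3, lt, Matrix.cons_val_zero, Matrix.cons_val_one, Matrix.cons_val_two,
            Matrix.head_cons, Matrix.tail_cons, Matrix.cons_val, cond_true, cond_false]
          rfl
        rw [h1, hval _ hu, hval _ (hUt l u' hu), List.map_cons, List.prod_cons]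
        group
    · show word3 val ![(y r.toWord, true), (y [], true), (y [], false)] = 1
      simp only [word3, lt, Matrix.cons_val_zero, Matrix.cons_val_one, Matrix.cons_val_two,
          Matrix.head_cons, Matrix.tail_cons, Matrix.cons_val, cond_true, cond_false]
      rw [hval [] hU0, hval _ (hUr r hr), ← lift_mk_eq, FreeGroup.mk_toWord]
      have h2 : (FreeGroup.lift fun i => (PresentedGroup.of i : PresentedGroup R)) r = 1 := by
        have h3 : (FreeGroup.lift fun i => (PresentedGroup.of i : PresentedGroup R)) =
            PresentedGroup.mk R := by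
          apply FreeGroup.ext_hom
          intro i
          rw [FreeGroup.lift_apply_of]
          rfl
        rw [h3]
        exact PresentedGroup.one_of_mem hr
      rw [h2]
      simp
  · intro H _ v hv r hr
    have he : v (y []) = 1 := by
      have h1 := hv (Sum.inl ⟨[], hU0⟩)
      simpa [τ, τ1, word3, lt] using h1
    have hu : ∀ u, u ∈ U → v (y u) = (u.map (lt fun i => v (Sum.inl i))).prod := by
      intro u
      induction u with
      | nil => intro _; rw [he]; rfl
      | cons l u' ih =>
        intro h
        have h1 := hv (Sum.inl ⟨l :: u', h⟩)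
        have h2 : (v (y (l :: u')))⁻¹ * lt (fun i => v (Sum.inl i)) l * v (y u') = 1 := by
          simpa [τ, τ1, word3, lt] using h1
        rw [List.map_cons, List.prod_cons, ← ih (hUt l u' h)]
        rw [mul_assoc, inv_mul_eq_one] at h2
        exact h2
    have h1 := hv (Sum.inr ⟨r, hr⟩)
    have h2 : v (y r.toWord) = 1 := by
      simpa [τ, word3, lt, he] using h1
    rw [hu _ (hUr r hr), ← lift_mk_eq, FreeGroup.mk_toWord] at h2
    exact h2

end Pool.Agent.Helper98.RG
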