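import Pool.Agent.Helper98.RG.Block

/-!
# Random presentations: the lower bound for the proportion of the exceptions
-/

set_option autoImplicit false

open Filter

namespace Pool.Agent.Helper98.RG

/-- One finitely presented group outside of `C`: the proportion of the exceptions. -/
theorem lower {C : ∀ (G : Type) [Group G], Prop} (hC : Retracts C) {a : ℕ}
    {R : Set (FreeGroup (Fin a))} (hR : R.Finite) (hnot : ¬ C (PresentedGroup R)) :
    ∃ k : ℕ, ∀ n m : ℕ, k ≤ n → k ≤ m →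
      Real.exp (-(k * m / n)) / (n : ℝ) ^ k ≤ exceptions C n m / (2 * n : ℝ) ^ (3 * m) := by
  obtain ⟨α, β, hb⟩ := block hC hR hnot
  refine ⟨6 * α + 6 * β + 2, fun n m hn hm => ?_⟩
  obtain ⟨n', rfl⟩ : ∃ n', n = α + n' := ⟨n - α, by omega⟩
  obtain ⟨m', rfl⟩ : ∃ m', m = β + m' := ⟨m - β, by omega⟩
  have h3 := hb n' m'
  have h4 : (((2 * n') ^ (3 * m') : ℕ) : ℝ) ≤ exceptions C (α + n') (β + m') := by exact_mod_cast h3
  set N : ℝ := ((α + n' : ℕ) : ℝ) with hN
  have hN2 : (2 : ℝ) ≤ N := by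
    rw [hN]
    exact_mod_cast (by omega : 2 ≤ α + n')
  have hN0 : 0 < N := by linarith
  have hαN : 2 * (α : ℝ) ≤ N := by
    rw [hN]
    exact_mod_cast (by omega : 2 * α ≤ α + n')
  have hn' : (n' : ℝ) = N - α := by
    rw [hN]; push_cast; ring
  -- the ratio `n' / N`
  have h5 : Real.exp (-(2 * α / N)) ≤ n' / N := by
    have hx0 : 0 ≤ (α : ℝ) / N := by positivity
    have hx1 : (α : ℝ) / N ≤ 1 / 2 := by
      rw [div_le_div_iff₀ hN0 (by norm_num)]
      linarith
    have h6 : (n' : ℝ) / N = 1 - α / N := by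
      rw [hn', sub_div, div_self hN0.ne']
    rw [h6]
    have h7 : (1 - α / N) * Real.exp (2 * (α / N)) ≥ 1 := by
      have h8 : 1 + 2 * ((α : ℝ) / N) ≤ Real.exp (2 * (α / N)) := by
        have := Real.add_one_le_exp (2 * ((α : ℝ) / N))
        linarith
      have h9 : (1 - (α : ℝ) / N) * (1 + 2 * (α / N)) ≥ 1 := by nlinarith
      have h10 : 0 ≤ 1 - (α : ℝ) / N := by linarith
      exact h9.le.trans (mul_le_mul_of_nonneg_left h8 h10)
    have h11 : Real.exp (-(2 * α / N)) = (Real.exp (2 * (α / N)))⁻¹ := by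
      rw [← Real.exp_neg]
      congr 1
      ring
    rw [h11, inv_le_iff_one_le_mul₀ (Real.exp_pos _)]
    exact h7
  -- the proportion
  have h12 : (((2 * n') ^ (3 * m') : ℕ) : ℝ) / (2 * N) ^ (3 * (β + m')) =
      (n' / N) ^ (3 * m') / (2 * N) ^ (3 * β) := by
    push_cast
    rw [mul_add, pow_add, div_pow, mul_pow 2 (n' : ℝ), mul_pow 2 N (3 * m')]
    have : (2 : ℝ) ^ (3 * m') ≠ 0 := by positivity
    have : N ^ (3 * m') ≠ 0 := by positivity
    field_simp
  have h13 : Real.exp (-((6 * α + 6 * β + 2 : ℕ) * ((β + m' : ℕ) : ℝ) / N)) ≤ (n' / N) ^ (3 * m') := by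
    refine le_trans ?_ (pow_le_pow_left₀ (Real.exp_pos _).le h5 _)
    rw [← Real.exp_nat_mul]
    apply Real.exp_le_exp.2
    have h14 : ((3 * m' : ℕ) : ℝ) * -(2 * α / N) = -((6 * α * m') / N) := by
      push_cast
      ring
    rw [h14, neg_le_neg_iff]
    apply div_le_div_of_nonneg_right _ hN0.le
    push_cast
    have e1 : (0 : ℝ) ≤ α := by positivity
    have e2 : (0 : ℝ) ≤ β := by positivity
    have e3 : (0 : ℝ) ≤ m' := by positivity
    nlinarith [mul_nonneg e1 e2, mul_nonneg e2 e3, mul_nonneg e2 e2, mul_nonneg e1 e3]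
  have h15 : (2 * N) ^ (3 * β) ≤ N ^ (6 * α + 6 * β + 2) := by
    have h16 : (2 * N) ^ (3 * β) ≤ (N ^ 2) ^ (3 * β) :=
      pow_le_pow_left₀ (by positivity) (by nlinarith) _
    refine h16.trans ?_
    rw [← pow_mul]
    exact pow_le_pow_right₀ (by linarith) (by omega)
  calc Real.exp (-((6 * α + 6 * β + 2 : ℕ) * ((β + m' : ℕ) : ℝ) / N)) / N ^ (6 * α + 6 * β + 2)
      ≤ (n' / N) ^ (3 * m') / (2 * N) ^ (3 * β) :=
        div_le_div₀ (by positivity) h13 (by positivity) h15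
    _ = (((2 * n') ^ (3 * m') : ℕ) : ℝ) / (2 * N) ^ (3 * (β + m')) := h12.symm
    _ ≤ exceptions C (α + n') (β + m') / (2 * N) ^ (3 * (β + m')) :=
        div_le_div_of_nonneg_right h4 (by positivity)

/-- The exceptions among the presentations with `m = O(n log n)` relators. -/
theorem fp_iff {C : ∀ (G : Type) [Group G], Prop} (hC : Retracts C) (m : ℕ → ℕ) (c : ℝ)
    (hm : Tendsto m atTop atTop) (hmc : ∀ᶠ n : ℕ in atTop, (m n : ℝ) ≤ c * n * Real.log n)
    (h : ∀ K : ℕ, ∃ᶠ n : ℕ in atTop,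
      exceptions C n (m n) / (2 * n : ℝ) ^ (3 * m n) ≤ 1 / (n : ℝ) ^ K) :
    ∀ (a : ℕ) (R : Set (FreeGroup (Fin a))), R.Finite → C (PresentedGroup R) := by
  intro a R hR
  by_contra hnot
  obtain ⟨k, hk⟩ := lower hC hR hnot
  obtain ⟨c', hc'⟩ := exists_nat_gt c
  apply h (k + k * c' + 1)
  filter_upwards [hmc, hm.eventually_ge_atTop k, eventually_ge_atTop k, eventually_ge_atTop 2]
    with n h2 h3 h4 h5
  rw [not_le]
  refine lt_of_lt_of_le ?_ (hk n (m n) h4 h3)
  have hn : (2 : ℝ) ≤ n := by exact_mod_cast h5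
  have hn0 : (0 : ℝ) < n := by linarith
  have hlog : 0 ≤ Real.log n := Real.log_nonneg (by linarith)
  have h6 : ((n : ℝ) ^ (k * c'))⁻¹ ≤ Real.exp (-(k * m n / n)) := by
    rw [← Real.exp_log (pow_pos hn0 _), ← Real.exp_neg, Real.log_pow]
    apply Real.exp_le_exp.2
    rw [neg_le_neg_iff, div_le_iff₀ hn0]
    have h7 : (m n : ℝ) ≤ c' * n * Real.log n := by
      refine h2.trans ?_
      have : c * n ≤ c' * n := mul_le_mul_of_nonneg_right hc'.le hn0.le
      exact mul_le_mul_of_nonneg_right this hlog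
    push_cast
    have h8 : (0 : ℝ) ≤ k := by positivity
    nlinarith [mul_le_mul_of_nonneg_left h7 h8]
  rw [div_lt_div_iff₀ (by positivity) (by positivity), one_mul]
  have h9 : (n : ℝ) ^ (k + k * c' + 1) = (n : ℝ) ^ k * ((n : ℝ) ^ (k * c') * n) := by
    rw [pow_succ, pow_add]; ring
  rw [h9]
  have h10 : 1 < Real.exp (-(k * m n / n)) * ((n : ℝ) ^ (k * c') * n) := by
    have h11 : 1 ≤ Real.exp (-(k * m n / n)) * (n : ℝ) ^ (k * c') := by
      rw [inv_le_iff_one_le_mul₀ (by positivity)] at h6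
      exact h6
    have h12 : Real.exp (-(k * m n / n)) * ((n : ℝ) ^ (k * c') * n) =
      (Real.exp (-(k * m n / n)) * (n : ℝ) ^ (k * c')) * n := by ring
    rw [h12]
    nlinarith
  have h13 : (0 : ℝ) < (n : ℝ) ^ k := by positivity
  calc (n : ℝ) ^ k = (n : ℝ) ^ k * 1 := (mul_one _).symm
    _ < (n : ℝ) ^ k * (Real.exp (-(k * m n / n)) * ((n : ℝ) ^ (k * c') * n)) :=
        mul_lt_mul_of_pos_left h10 h13
    _ = Real.exp (-(k * m n / n)) * ((n : ℝ) ^ k * ((n : ℝ) ^ (k * c') * n)) := by ring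

end Pool.Agent.Helper98.RG
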